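import Pool.Agent.W622.BK.Stm

/-! # Bloch-Kato Lie algebras: the Turan type induction -/

set_option autoImplicit false

namespace Pool.Agent.W641.BK

open Module Pool.Agent.W622.BK

universe u

theorem base (k : Type u) [Field k] (E : Type u) [AddCommGroup E] [Module k E]
    (R : Submodule k (E →ₗ[k] E →ₗ[k] k)) (X : Submodule k (E →ₗ[k] k))
    (h : D R X 2 = ⊥) : Rx R X = ⊥ := by
  rw [eq_bot_iff]
  intro r hr
  rw [Submodule.mem_bot]
  let ω : G k E 2 := (cur k E).symm
    { toFun := fun e => (cur k E).symm ((ev0 k E).symm.toLinearMap ∘ₗ (r e))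
      map_add' := by
        intro a b
        rw [map_add, LinearMap.comp_add, map_add]
      map_smul' := by
        intro c a
        rw [map_smul, LinearMap.comp_smul, map_smul]; rfl }
  have h1 : ∀ e, cur k E ω e = (cur k E).symm ((ev0 k E).symm.toLinearMap ∘ₗ (r e)) := by
    intro e
    show (cur k E ((cur k E).symm _)) e = _
    rw [LinearEquiv.apply_symm_apply]
    rfl
  have h2 : ∀ e e', cur k E (cur k E ω e) e' = (ev0 k E).symm (r e e') := by
    intro e e'
    rw [h1, LinearEquiv.apply_symm_apply]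
    rfl
  have hm : ω ∈ D R X 2 := by
    refine ⟨fun e => ?_, fun φ => ?_⟩
    · show one k E (cur k E ω e) ∈ X
      have h3 : one k E (cur k E ω e) = r e := by
        ext e'
        show ev0 k E (cur k E (cur k E ω e) e') = r e e'
        rw [h2, LinearEquiv.apply_symm_apply]
      rw [h3]
      exact hr.2 e
    · have h4 : (cc k E ω).compr₂ φ = (φ ((ev0 k E).symm 1)) • r := by
        ext e e'
        show φ (cur k E (cur k E ω e) e') = _
        rw [h2]
        have h5 : (ev0 k E).symm (r e e') = (r e e') • (ev0 k E).symm 1 := by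
          rw [← map_smul, smul_eq_mul, mul_one]
        rw [h5, map_smul, smul_eq_mul, LinearMap.smul_apply, LinearMap.smul_apply, smul_eq_mul,
          mul_comm]
      rw [h4]
      exact R.smul_mem _ hr.1
  rw [h, Submodule.mem_bot] at hm
  ext e e'
  have h6 := h2 e e'
  rw [hm] at h6
  have h7 : cur k E (cur k E (0 : G k E 2) e) e' = 0 := by
    rw [map_zero, LinearMap.zero_apply, map_zero, LinearMap.zero_apply]
  rw [h7] at h6
  have h8 := congrArg (ev0 k E) h6
  rw [LinearEquiv.apply_symm_apply, map_zero] at h8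
  rw [← h8]
  rfl

theorem Nn_le {k : Type u} [Field k] {E : Type u} [AddCommGroup E] [Module k E]
    (R : Submodule k (E →ₗ[k] E →ₗ[k] k)) (X : Submodule k (E →ₗ[k] k)) (u : E) :
    Nn R X u ≤ X := by
  rintro f ⟨r, hr, rfl⟩
  exact hr.2 u

theorem arith (n m a d d' : ℕ) (ham : a ≤ m) (h1 : 2 * (n + 1) * d' ≤ n * a ^ 2)
    (h2 : d ≤ d' + (m - a) * a) : 2 * (n + 1 + 1) * d ≤ (n + 1) * m ^ 2 := by
  obtain ⟨c, rfl⟩ := Nat.exists_eq_add_of_le ham
  rw [Nat.add_sub_cancel_left] at h2
  have key : (n + 1) * (2 * (n + 1 + 1) * d) ≤ (n + 1) * ((n + 1) * (a + c) ^ 2) := by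
    have e1 : (n + 1) * (2 * (n + 1 + 1) * d) ≤ (n + 1) * (2 * (n + 1 + 1) * (d' + c * a)) := by
      gcongr
    have e2 : (n + 2) * (2 * (n + 1) * d') ≤ (n + 2) * (n * a ^ 2) := Nat.mul_le_mul_left _ h1
    have e3 : (n + 2) * (n * a ^ 2) + 2 * (n + 1) * (n + 2) * (c * a) ≤
        (n + 1) * ((n + 1) * (a + c) ^ 2) := by
      zify
      nlinarith [sq_nonneg (((n : ℤ) + 1) * ((a : ℤ) + c) - (n + 2) * a)]
    nlinarith [e1, e2, e3]
  exact Nat.le_of_mul_le_mul_left key (Nat.succ_pos n)

theorem t_TUR : Pool.Agent.W622.BK.S_TUR.{u} := by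
  intro hDIM k _ E _ _ _ R hR hV n
  induction n with
  | zero =>
    intro X hX
    rw [base k E R X hX, finrank_bot]
    simp
  | succ n ih =>
    intro X hX
    obtain ⟨u, hu⟩ : ∃ u : E, ∀ v, finrank k (Nn R X v) ≤ finrank k (Nn R X u) := by
      have hb : ∃ N, ∀ v : E, finrank k (Nn R X v) ≤ N :=
        ⟨finrank k X, fun v => Submodule.finrank_mono (Nn_le R X v)⟩
      classical
      by_contra hcon
      push_neg at hcon
      obtain ⟨N, hN⟩ := hb
      have hgrow : ∀ t : ℕ, ∃ v : E, t ≤ finrank k (Nn R X v) := by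
        intro t
        induction t with
        | zero => exact ⟨0, Nat.zero_le _⟩
        | succ t iht =>
          obtain ⟨v, hv⟩ := iht
          obtain ⟨w, hw⟩ := hcon v
          exact ⟨w, by omega⟩
      obtain ⟨v, hv⟩ := hgrow (N + 1)
      have := hN v
      omega
    have h1 := ih (Nn R X u) (hV X u (n + 1) hX)
    have h2 := hDIM k E R hR X u hu
    exact arith n _ _ _ _ (Submodule.finrank_mono (Nn_le R X u)) h1 h2

end Pool.Agent.W641.BK
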